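import Pool.Agent.X218.RC.Rect

/-!
# Hausdorff dimension of the points which are well approximated by a sparse family, with different quality in each coordinate

With the notation of `Pool.Agent.X218.RC.Rect`: the set of the `x ∈ ℝ ^ n` such that `|x_j - e_{i,j}| ≤ A H_{i,j} ^ (-v)` for
all `j`, for infinitely many members `i`, has Hausdorff dimension at most `n - 1 + κ / v`.
-/

set_option autoImplicit false

open MeasureTheory Finset
open scoped ENNReal

namespace Pool.Agent.X218.RC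

open Pool.Agent.X149.MetricBalls (Sparse Near near_dim)

/-- cubes covering the boxes -/
def Cubes {n : ℕ} {ι : Type*} (E : Set ι) (H : ι → Fin n → ℝ) (v : ℝ) : Set (ι × (Fin n → ℤ)) :=
  {p | p.1 ∈ E ∧ ∀ j, |(p.2 j : ℝ)| ≤ 2 * ((∏ l, H p.1 l) ^ v * (H p.1 j) ^ (-v))}

lemma sparse_cubes {n : ℕ} (hn : 1 ≤ n) {ι : Type*} {E : Set ι} {H : ι → Fin n → ℝ} (hH : ∀ i j, 1 ≤ H i j)
    {κ v : ℝ} (hv : 0 < v) (hE : Sparse E (fun i => ∏ j, H i j) κ) :
    Sparse (Cubes E H v) (fun p => ∏ j, H p.1 j) (κ + (n - 1) * v) := by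
  classical
  intro ε hε
  obtain ⟨M, hM⟩ := hE ε hε
  refine ⟨|M| * 6 ^ n, fun X hX => ?_⟩
  have hX0 : (0 : ℝ) < X := by linarith
  obtain ⟨hfin, hcard⟩ := hM X hX
  have hn1 : (0 : ℝ) ≤ (n : ℝ) - 1 := by
    have : (1 : ℝ) ≤ n := by exact_mod_cast hn
    linarith
  set K : ι → Fin n → ℝ := fun i j => 2 * ((∏ l, H i l) ^ v * (H i j) ^ (-v)) with hK
  have hP : ∀ i, 1 ≤ ∏ l, H i l := fun i => by
    calc (1 : ℝ) = ∏ _j : Fin n, (1 : ℝ) := by simp
      _ ≤ _ := Finset.prod_le_prod (fun _ _ => zero_le_one) (fun j _ => hH i j)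
  have hle : ∀ i j, H i j ≤ ∏ l, H i l := fun i j => by
    rw [← Finset.mul_prod_erase univ _ (mem_univ j)]
    refine le_mul_of_one_le_right (by linarith [hH i j]) ?_
    calc (1 : ℝ) = ∏ _j ∈ univ.erase j, (1 : ℝ) := by simp
      _ ≤ _ := Finset.prod_le_prod (fun _ _ => zero_le_one) (fun l _ => hH i l)
  have hK2 : ∀ i j, 2 ≤ K i j := fun i j => by
    rw [hK]
    have h0 : 0 < H i j := by linarith [hH i j]
    have h1 : (H i j) ^ v ≤ (∏ l, H i l) ^ v := Real.rpow_le_rpow h0.le (hle i j) hv.le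
    have h2 : (H i j) ^ v * (H i j) ^ (-v) = 1 := by
      rw [← Real.rpow_add h0, add_neg_cancel, Real.rpow_zero]
    have h3 : (H i j) ^ v * (H i j) ^ (-v) ≤ (∏ l, H i l) ^ v * (H i j) ^ (-v) :=
      mul_le_mul_of_nonneg_right h1 (by positivity)
    dsimp only
    linarith
  set N : ι → Finset (ι × (Fin n → ℤ)) := fun i =>
    {i} ×ˢ Fintype.piFinset (fun j => Icc (-⌊K i j⌋) ⌊K i j⌋) with hN
  have hsub : {p | p ∈ Cubes E H v ∧ ∏ j, H p.1 j ≤ X} ⊆ (hfin.toFinset.biUnion N : Finset (ι × (Fin n → ℤ))) := by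
    rintro ⟨i, k⟩ ⟨⟨h1, h2⟩, h3⟩
    rw [Finset.mem_coe, mem_biUnion]
    refine ⟨i, (Set.Finite.mem_toFinset hfin).2 ⟨h1, h3⟩, ?_⟩
    rw [hN]
    simp only [mem_product, mem_singleton, Fintype.mem_piFinset, mem_Icc, true_and]
    intro j
    have h4 := abs_le.1 (h2 j)
    change -(K i j) ≤ (k j : ℝ) ∧ (k j : ℝ) ≤ K i j at h4
    have a1 : k j ≤ ⌊K i j⌋ := Int.le_floor.2 h4.2
    have a2 : -k j ≤ ⌊K i j⌋ := Int.le_floor.2 (by push_cast; linarith [h4.1])
    omega
  refine ⟨(Finset.finite_toSet _).subset hsub, ?_⟩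
  have h1 := Set.ncard_le_ncard hsub (Finset.finite_toSet _)
  rw [Set.ncard_coe_finset] at h1
  have h2 : ∀ i ∈ hfin.toFinset, ((N i).card : ℝ) ≤ 6 ^ n * X ^ ((n - 1) * v) := by
    intro i hi
    obtain ⟨-, hiX⟩ := (Set.Finite.mem_toFinset hfin).1 hi
    rw [hN]
    simp only [card_product, card_singleton, one_mul, Fintype.card_piFinset, Int.card_Icc]
    push_cast
    calc ∏ j, (((⌊K i j⌋ + 1 - -⌊K i j⌋).toNat : ℕ) : ℝ) ≤ ∏ j, (6 * ((∏ l, H i l) ^ v * (H i j) ^ (-v))) := by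
          refine Finset.prod_le_prod (fun _ _ => Nat.cast_nonneg _) fun j _ => ?_
          have e0 : (0 : ℤ) ≤ ⌊K i j⌋ := Int.floor_nonneg.2 (by linarith [hK2 i j])
          have e1 : (((⌊K i j⌋ + 1 - -⌊K i j⌋).toNat : ℕ) : ℤ) = ⌊K i j⌋ + 1 - -⌊K i j⌋ := Int.toNat_of_nonneg (by omega)
          have e2 : (((⌊K i j⌋ + 1 - -⌊K i j⌋).toNat : ℕ) : ℝ) = (⌊K i j⌋ : ℝ) + 1 + ⌊K i j⌋ := by
            have : (((⌊K i j⌋ + 1 - -⌊K i j⌋).toNat : ℕ) : ℝ) = (((⌊K i j⌋ + 1 - -⌊K i j⌋).toNat : ℕ) : ℤ) := by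
              push_cast; rfl
            rw [this, e1]
            push_cast
            ring
          rw [e2]
          have e3 := Int.floor_le (K i j)
          have e4 : 6 * ((∏ l, H i l) ^ v * (H i j) ^ (-v)) = 3 * K i j := by rw [hK]; ring
          rw [e4]
          linarith [hK2 i j]
      _ = 6 ^ n * (((∏ l, H i l) ^ v) ^ n * (∏ l, H i l) ^ (-v)) := by
          rw [Finset.prod_mul_distrib, Finset.prod_mul_distrib, Finset.prod_const, Finset.prod_const, Finset.card_univ,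
            Fintype.card_fin, Real.finset_prod_rpow _ _ (fun j _ => by linarith [hH i j])]
      _ = 6 ^ n * (∏ l, H i l) ^ ((n - 1) * v) := by
          have e0 : 0 < ∏ l, H i l := by linarith [hP i]
          rw [← Real.rpow_natCast ((∏ l, H i l) ^ v) n, ← Real.rpow_mul e0.le, ← Real.rpow_add e0]
          congr 2
          ring
      _ ≤ 6 ^ n * X ^ ((n - 1) * v) := by
          refine mul_le_mul_of_nonneg_left ?_ (by positivity)
          exact Real.rpow_le_rpow (by linarith [hP i]) hiX (by positivity)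
  calc (({p | p ∈ Cubes E H v ∧ ∏ j, H p.1 j ≤ X}.ncard : ℕ) : ℝ) ≤ ((hfin.toFinset.biUnion N).card : ℝ) := by
        exact_mod_cast h1
    _ ≤ ∑ i ∈ hfin.toFinset, ((N i).card : ℝ) := by exact_mod_cast card_biUnion_le
    _ ≤ ∑ _i ∈ hfin.toFinset, 6 ^ n * X ^ ((n - 1) * v) := sum_le_sum h2
    _ = (hfin.toFinset.card : ℝ) * (6 ^ n * X ^ ((n - 1) * v)) := by rw [sum_const, nsmul_eq_mul]
    _ ≤ (|M| * X ^ (κ + ε)) * (6 ^ n * X ^ ((n - 1) * v)) := by
        refine mul_le_mul_of_nonneg_right ?_ (by positivity)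
        rw [← Set.ncard_eq_toFinset_card _ hfin]
        exact hcard.trans (mul_le_mul_of_nonneg_right (le_abs_self M) (by positivity))
    _ = |M| * 6 ^ n * (X ^ (κ + ε) * X ^ ((n - 1) * v)) := by ring
    _ = |M| * 6 ^ n * X ^ (κ + (n - 1) * v + ε) := by
        rw [← Real.rpow_add hX0]
        congr 2
        ring

/-- **Theorem.** -/
theorem rect_dim {n : ℕ} (hn : 1 ≤ n) {ι : Type*} [Countable ι] {E : Set ι} {H e : ι → Fin n → ℝ}
    (hH : ∀ i j, 1 ≤ H i j) {κ v : ℝ} (hE : Sparse E (fun i => ∏ j, H i j) κ) (hκ0 : 0 ≤ κ) (hv : 0 < v) (A : ℝ) :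
    dimH {x : Fin n → ℝ | {i | i ∈ E ∧ ∀ j, |x j - e i j| ≤ A * (H i j) ^ (-v)}.Infinite} ≤
      ENNReal.ofReal (n - 1 + κ / v) := by
  set A' : ℝ := max A 1 with hA'
  have hA1 : 1 ≤ A' := le_max_right _ _
  have hn1 : (0 : ℝ) ≤ (n : ℝ) - 1 := by
    have : (1 : ℝ) ≤ n := by exact_mod_cast hn
    linarith
  have hP : ∀ i, 1 ≤ ∏ l, H i l := fun i => by
    calc (1 : ℝ) = ∏ _j : Fin n, (1 : ℝ) := by simp
      _ ≤ _ := Finset.prod_le_prod (fun _ _ => zero_le_one) (fun j _ => hH i j)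
  have hle : ∀ i j, H i j ≤ ∏ l, H i l := fun i j => by
    rw [← Finset.mul_prod_erase univ _ (mem_univ j)]
    refine le_mul_of_one_le_right (by linarith [hH i j]) ?_
    calc (1 : ℝ) = ∏ _j ∈ univ.erase j, (1 : ℝ) := by simp
      _ ≤ _ := Finset.prod_le_prod (fun _ _ => zero_le_one) (fun l _ => hH i l)
  set c : ι × (Fin n → ℤ) → Fin n → ℝ := fun p j => e p.1 j + p.2 j * (A' * (∏ l, H p.1 l) ^ (-v)) with hc
  have key := near_dim (X := Fin n → ℝ) (E := Cubes E H v) (h := fun p => ∏ j, H p.1 j) (fun p => hP p.1) c A'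
    (τ := v) (κ := κ + (n - 1) * v) (sparse_cubes hn hH hv hE) (by positivity) hv
  refine (dimH_mono ?_).trans (key.trans (le_of_eq ?_))
  · intro x hx
    rw [Set.mem_setOf_eq] at hx ⊢
    intro hfin
    apply hx
    refine (hfin.image Prod.fst).subset ?_
    rintro i ⟨hi, hij⟩
    set δ : ℝ := A' * (∏ l, H i l) ^ (-v) with hδ
    have hP0 : 0 < ∏ l, H i l := by linarith [hP i]
    have hδ0 : 0 < δ := by positivity
    set k : Fin n → ℤ := fun j => round ((x j - e i j) / δ) with hk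
    have hk1 : ∀ j, |(x j - e i j) / δ - k j| ≤ 1 / 2 := fun j => abs_sub_round _
    refine ⟨(i, k), ⟨⟨hi, fun j => ?_⟩, ?_⟩, rfl⟩
    · have e1 : |(x j - e i j) / δ| ≤ (∏ l, H i l) ^ v * (H i j) ^ (-v) := by
        rw [abs_div, abs_of_pos hδ0, div_le_iff₀ hδ0]
        have h0 : (0 : ℝ) ≤ (H i j) ^ (-v) := by have := hH i j; positivity
        calc |x j - e i j| ≤ A * (H i j) ^ (-v) := hij j
          _ ≤ A' * (H i j) ^ (-v) := mul_le_mul_of_nonneg_right (le_max_left _ _) h0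
          _ = (∏ l, H i l) ^ v * (H i j) ^ (-v) * δ := by
              rw [hδ]
              have : (∏ l, H i l) ^ v * (∏ l, H i l) ^ (-v) = 1 := by
                rw [← Real.rpow_add hP0, add_neg_cancel, Real.rpow_zero]
              calc A' * (H i j) ^ (-v) = A' * (H i j) ^ (-v) * ((∏ l, H i l) ^ v * (∏ l, H i l) ^ (-v)) := by
                    rw [this, mul_one]
                _ = _ := by ring
      have e2 : 1 ≤ (∏ l, H i l) ^ v * (H i j) ^ (-v) := by
        have h0 : 0 < H i j := by linarith [hH i j]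
        have h1 : (H i j) ^ v ≤ (∏ l, H i l) ^ v := Real.rpow_le_rpow h0.le (hle i j) hv.le
        have h2 : (H i j) ^ v * (H i j) ^ (-v) = 1 := by
          rw [← Real.rpow_add h0, add_neg_cancel, Real.rpow_zero]
        have h3 : (H i j) ^ v * (H i j) ^ (-v) ≤ (∏ l, H i l) ^ v * (H i j) ^ (-v) :=
          mul_le_mul_of_nonneg_right h1 (by positivity)
        linarith
      have e3 : |(k j : ℝ)| ≤ |(x j - e i j) / δ| + 1 / 2 := by
        have h1 : (k j : ℝ) = (x j - e i j) / δ - ((x j - e i j) / δ - k j) := by ring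
        rw [h1]
        refine (abs_sub _ _).trans ?_
        linarith [hk1 j]
      show |(k j : ℝ)| ≤ 2 * ((∏ l, H i l) ^ v * (H i j) ^ (-v))
      linarith
    · show dist x (c (i, k)) ≤ A' * (∏ l, H i l) ^ (-v)
      rw [dist_pi_le_iff hδ0.le]
      intro j
      rw [Real.dist_eq, hc]
      show |x j - (e i j + k j * δ)| ≤ δ
      have h1 : x j - (e i j + k j * δ) = ((x j - e i j) / δ - k j) * δ := by
        field_simp
        ring
      rw [h1, abs_mul, abs_of_pos hδ0]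
      calc |(x j - e i j) / δ - k j| * δ ≤ 1 / 2 * δ := mul_le_mul_of_nonneg_right (hk1 j) hδ0.le
        _ ≤ δ := by linarith
  · congr 1
    field_simp
    ring

end Pool.Agent.X218.RC
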