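import Pool.Agent.X149.MetricBalls

/-!
# Approximation of almost all points of `ℝ ^ n` by points of a sparse family, with different quality in each coordinate

Every member `i` of the countable family `E` has heights `H_1, …, H_n ≥ 1` and a centre `e_i ∈ ℝ ^ n`; if at most
`X ^ (κ + ε)` members have `H_1 ⋯ H_n ≤ X` and `κ < v`, then almost every `x ∈ ℝ ^ n` satisfies
`|x_j - e_{i,j}| ≤ A H_{i,j} ^ (-v)` for all `j` only for finitely many members `i`.
-/

set_option autoImplicit false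

open MeasureTheory Finset
open scoped ENNReal

namespace Pool.Agent.X218.RC

open Pool.Agent.X149.MetricBalls (Sparse)

/-- the measure of a box with sides `2 M H_j ^ (-v)` -/
lemma rect {n : ℕ} (M v : ℝ) (hM : 0 ≤ M) (H e : Fin n → ℝ) (hH : ∀ j, 1 ≤ H j) :
    volume (Set.univ.pi fun j => Metric.closedBall (e j) (M * (H j) ^ (-v))) =
      ENNReal.ofReal ((2 * M) ^ n * (∏ j, H j) ^ (-v)) := by
  rw [volume_pi, Measure.pi_pi]
  have h1 : ∀ j, volume (Metric.closedBall (e j) (M * (H j) ^ (-v))) =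
      ENNReal.ofReal ((2 * M) * (H j) ^ (-v)) := fun j => by
    rw [Real.volume_closedBall, mul_assoc]
  have h2 : ∀ j, 0 ≤ H j := fun j => by linarith [hH j]
  rw [Finset.prod_congr rfl fun j _ => h1 j, ← ENNReal.ofReal_prod_of_nonneg (fun j _ => by
    have := h2 j
    positivity)]
  congr 1
  rw [Finset.prod_mul_distrib, Finset.prod_const, Finset.card_univ, Fintype.card_fin]
  congr 1
  exact Real.finset_prod_rpow _ _ (fun j _ => h2 j) _

/-- **Theorem.** -/
theorem rect_null {n : ℕ} {ι : Type*} [Countable ι] {E : Set ι} {H e : ι → Fin n → ℝ} (hH : ∀ i j, 1 ≤ H i j)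
    {κ v : ℝ} (hE : Sparse E (fun i => ∏ j, H i j) κ) (hκ0 : 0 ≤ κ) (hκ : κ < v) :
    ∀ᵐ x : Fin n → ℝ, ∀ A : ℝ, {i | i ∈ E ∧ ∀ j, |x j - e i j| ≤ A * (H i j) ^ (-v)}.Finite := by
  have hh : ∀ i, 1 ≤ ∏ j, H i j := fun i => by
    calc (1 : ℝ) = ∏ _j : Fin n, (1 : ℝ) := by simp
      _ ≤ _ := Finset.prod_le_prod (fun _ _ => zero_le_one) (fun j _ => hH i j)
  have key : ∀ᵐ x : Fin n → ℝ, ∀ M : ℕ, {i | i ∈ E ∧ ∀ j, |x j - e i j| ≤ (M : ℝ) * (H i j) ^ (-v)}.Finite := by
    rw [ae_all_iff]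
    intro M
    have hM : (0 : ℝ) ≤ M := Nat.cast_nonneg M
    obtain ⟨C, hC⟩ := hE ((v - κ) / 2) (by linarith)
    have hs := Pool.Agent.X149.CountableLimsup.summable_height (ρ := v) (h := fun i => ∏ j, H i j) hh hC
      (by linarith) (by linarith)
    have hfin : ∑' i : E, volume (Set.univ.pi fun j =>
        Metric.closedBall (e (i : ι) j) ((M : ℝ) * (H (i : ι) j) ^ (-v))) ≠ ∞ := by
      have h1 : ∀ i : E, volume (Set.univ.pi fun j => Metric.closedBall (e (i : ι) j) ((M : ℝ) * (H (i : ι) j) ^ (-v))) =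
          ENNReal.ofReal ((2 * M) ^ n * (∏ j, H (i : ι) j) ^ (-v)) := fun i => rect M v hM _ _ (hH i)
      simp only [h1]
      exact (hs.mul_left _).tsum_ofReal_ne_top
    have hae := ae_finite_setOfPred_mem hfin
    filter_upwards [hae] with x hx
    refine (hx.image (fun i : E => (i : ι))).subset ?_
    rintro i ⟨h1, h2⟩
    refine ⟨⟨i, h1⟩, ?_, rfl⟩
    show x ∈ Set.univ.pi fun j => Metric.closedBall (e i j) ((M : ℝ) * (H i j) ^ (-v))
    intro j _
    rw [Metric.mem_closedBall, Real.dist_eq]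
    exact h2 j
  filter_upwards [key] with x hx A
  obtain ⟨M, hM⟩ := exists_nat_ge A
  refine (hx M).subset ?_
  rintro i ⟨h1, h2⟩
  refine ⟨h1, fun j => (h2 j).trans (mul_le_mul_of_nonneg_right hM ?_)⟩
  have := hH i j
  positivity

end Pool.Agent.X218.RC
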