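import Pool.Agent.X218.RC.RectDim

/-!
# Tuples of denominators of good approximations avoid sparse sets of tuples

Let `Bad` be a property of `m`-tuples of positive integers which holds for at most `X ^ (s + ε)` tuples with
`q_1 ⋯ q_m ≤ X`. For `θ > s`, all `y` and almost all `x ∈ ℝ ^ m`, only finitely many bad tuples `q` are such that each
`q_j x_j` is within `A q_j ^ (-θ)` of `y_j` modulo `1`; for `θ ≥ 0` the exceptional set has Hausdorff dimension at most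
`m - 1 + (1 + s) / (1 + θ)`.
-/

set_option autoImplicit false

open MeasureTheory Finset
open scoped ENNReal

namespace Pool.Agent.X218.RC

open Pool.Agent.X149.MetricBalls (Sparse)

/-- the bad tuples of positive integers, `q_j x_j` within `A q_j ^ (-θ)` of `y_j` modulo `1` -/
def Tup {m : ℕ} (Bad : (Fin m → ℕ) → Prop) (θ A : ℝ) (y x : Fin m → ℝ) : Set (Fin m → ℕ) :=
  {q | (∀ j, 1 ≤ q j) ∧ (∀ j, ∃ p : ℤ, |(q j : ℝ) * x j - p - y j| ≤ A * (q j : ℝ) ^ (-θ)) ∧ Bad q}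

/-- at most `X ^ (s + ε)` bad tuples with product at most `X` -/
def Few {m : ℕ} (Bad : (Fin m → ℕ) → Prop) (s : ℝ) : Prop :=
  ∀ ε : ℝ, 0 < ε → ∃ C : ℝ, 0 < C ∧ ∀ X : ℝ, 1 ≤ X →
    ∃ T : Finset (Fin m → ℕ), (∀ q : Fin m → ℕ, (∀ j, 1 ≤ q j) → Bad q → ∏ j, (q j : ℝ) ≤ X → q ∈ T) ∧
      (∀ q ∈ T, (∀ j, 1 ≤ q j) ∧ ∏ j, (q j : ℝ) ≤ X) ∧ (T.card : ℝ) ≤ C * X ^ (s + ε)

/-- bad tuples with numerators -/
def TExc {m : ℕ} (Bad : (Fin m → ℕ) → Prop) (R : ℕ) : Set ((Fin m → ℕ) × (Fin m → ℤ)) :=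
  {i | ((∀ j, 1 ≤ i.1 j) ∧ Bad i.1) ∧ ∀ j, |i.2 j| ≤ (R : ℤ) * i.1 j}

/-- heights -/
noncomputable def TH {m : ℕ} (i : (Fin m → ℕ) × (Fin m → ℤ)) (j : Fin m) : ℝ := max 1 (i.1 j : ℝ)

lemma sparse_tuples {m : ℕ} {Bad : (Fin m → ℕ) → Prop} {s : ℝ} (hF : Few Bad s) (R : ℕ) (hR : 1 ≤ R) :
    Sparse (TExc Bad R) (fun i => ∏ j, TH i j) (s + 1) := by
  classical
  intro ε hε
  obtain ⟨C, hC0, hC⟩ := hF ε hε
  refine ⟨C * (3 * R) ^ m, fun X hX => ?_⟩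
  have hX0 : (0 : ℝ) < X := by linarith
  obtain ⟨T, hT1, hT2, hT3⟩ := hC X hX
  set N : (Fin m → ℕ) → Finset ((Fin m → ℕ) × (Fin m → ℤ)) := fun q =>
    {q} ×ˢ Fintype.piFinset (fun j => Icc (-((R : ℤ) * q j)) ((R : ℤ) * q j)) with hN
  have hHq : ∀ i ∈ TExc Bad R, ∏ j, TH i j = ∏ j, (i.1 j : ℝ) := by
    intro i hi
    refine Finset.prod_congr rfl fun j _ => ?_
    have h1 : (1 : ℝ) ≤ (i.1 j : ℝ) := by exact_mod_cast hi.1.1 j
    exact max_eq_right h1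
  have hsub : {i | i ∈ TExc Bad R ∧ ∏ j, TH i j ≤ X} ⊆ (T.biUnion N : Finset ((Fin m → ℕ) × (Fin m → ℤ))) := by
    rintro i ⟨hi, hiX⟩
    rw [hHq i hi] at hiX
    rw [Finset.mem_coe, mem_biUnion]
    refine ⟨i.1, hT1 _ hi.1.1 hi.1.2 hiX, ?_⟩
    rw [hN]
    simp only [mem_product, mem_singleton, Fintype.mem_piFinset, mem_Icc, true_and]
    exact fun j => abs_le.1 (hi.2 j)
  refine ⟨(Finset.finite_toSet _).subset hsub, ?_⟩
  have h1 := Set.ncard_le_ncard hsub (Finset.finite_toSet _)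
  rw [Set.ncard_coe_finset] at h1
  have h2 : ∀ q ∈ T, ((N q).card : ℝ) ≤ (3 * R) ^ m * X := by
    intro q hq
    obtain ⟨h3, h4⟩ := hT2 q hq
    rw [hN]
    simp only [card_product, card_singleton, one_mul, Fintype.card_piFinset, Int.card_Icc]
    push_cast
    calc ∏ j, (((((R : ℤ) * q j + 1 - -((R : ℤ) * q j)).toNat : ℕ)) : ℝ) ≤ ∏ j, (3 * R * (q j : ℝ)) := by
          refine Finset.prod_le_prod (fun _ _ => Nat.cast_nonneg _) fun j _ => ?_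
          have e1 : ((R : ℤ) * q j + 1 - -((R : ℤ) * q j)).toNat ≤ 3 * R * q j := by
            have e2 : 1 ≤ R * q j := Nat.one_le_iff_ne_zero.2 (Nat.mul_ne_zero (by omega) (by have := h3 j; omega))
            have e3 : ((R * q j : ℕ) : ℤ) = (R : ℤ) * q j := by push_cast; rfl
            rw [← e3]
            have e4 : 3 * R * q j = 3 * (R * q j) := by ring
            rw [e4]
            omega
          exact_mod_cast e1
      _ = (3 * R) ^ m * ∏ j, (q j : ℝ) := by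
          rw [Finset.prod_mul_distrib, Finset.prod_const, Finset.card_univ, Fintype.card_fin]
      _ ≤ (3 * R) ^ m * X := mul_le_mul_of_nonneg_left h4 (by positivity)
  calc (({i | i ∈ TExc Bad R ∧ ∏ j, TH i j ≤ X}.ncard : ℕ) : ℝ) ≤ ((T.biUnion N).card : ℝ) := by exact_mod_cast h1
    _ ≤ ∑ q ∈ T, ((N q).card : ℝ) := by exact_mod_cast card_biUnion_le
    _ ≤ ∑ _q ∈ T, (3 * R) ^ m * X := sum_le_sum h2
    _ = (T.card : ℝ) * ((3 * R) ^ m * X) := by rw [sum_const, nsmul_eq_mul]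
    _ ≤ (C * X ^ (s + ε)) * ((3 * R) ^ m * X) := mul_le_mul_of_nonneg_right hT3 (by positivity)
    _ = C * (3 * R) ^ m * (X ^ (s + ε) * X ^ (1 : ℝ)) := by
        rw [Real.rpow_one]
        ring
    _ = C * (3 * R) ^ m * X ^ (s + 1 + ε) := by
        rw [← Real.rpow_add hX0]
        congr 2
        ring

lemma cover {m : ℕ} {Bad : (Fin m → ℕ) → Prop} {θ A : ℝ} (hθ : 0 ≤ θ) (y x : Fin m → ℝ) {R : ℕ}
    (hR : ‖x‖ + ‖y‖ + |A| ≤ R) :
    Tup Bad θ A y x ⊆ Prod.fst '' {i | i ∈ TExc Bad (R + 1) ∧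
      ∀ j, |x j - ((i.2 j : ℝ) + y j) / (i.1 j : ℝ)| ≤ |A| * (TH i j) ^ (-(1 + θ))} := by
  rintro q ⟨hq, hap, hbad⟩
  choose p hp using hap
  have hq1 : ∀ j, (1 : ℝ) ≤ q j := fun j => by exact_mod_cast hq j
  refine ⟨(q, p), ⟨⟨⟨hq, hbad⟩, fun j => ?_⟩, fun j => ?_⟩, rfl⟩
  · have e1 : ((p j : ℤ) : ℝ) = (q j : ℝ) * x j - y j - ((q j : ℝ) * x j - p j - y j) := by ring
    have e2 : |((p j : ℤ) : ℝ)| ≤ (q j : ℝ) * ‖x‖ + ‖y‖ + |A| := by
      rw [e1]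
      refine (abs_sub _ _).trans (add_le_add ((abs_sub _ _).trans (add_le_add ?_ (norm_le_pi_norm y j))) ?_)
      · rw [abs_mul, abs_of_nonneg (Nat.cast_nonneg (q j) : (0 : ℝ) ≤ (q j : ℝ))]
        exact mul_le_mul_of_nonneg_left (norm_le_pi_norm x j) (Nat.cast_nonneg _)
      · refine (hp j).trans ?_
        have h1 : (q j : ℝ) ^ (-θ) ≤ 1 := Real.rpow_le_one_of_one_le_of_nonpos (hq1 j) (by linarith)
        have h2 : 0 ≤ (q j : ℝ) ^ (-θ) := by positivity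
        calc A * (q j : ℝ) ^ (-θ) ≤ |A| * (q j : ℝ) ^ (-θ) := mul_le_mul_of_nonneg_right (le_abs_self A) h2
          _ ≤ |A| := mul_le_of_le_one_right (abs_nonneg A) h1
    have e3 : |((p j : ℤ) : ℝ)| ≤ ((R : ℝ) + 1) * q j := by
      have := norm_nonneg x
      have := norm_nonneg y
      have := abs_nonneg A
      nlinarith [hq1 j]
    show |p j| ≤ ((R + 1 : ℕ) : ℤ) * (q j : ℤ)
    have e4 : ((|p j| : ℤ) : ℝ) ≤ (((R + 1 : ℕ) : ℤ) * (q j : ℤ) : ℤ) := by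
      push_cast
      exact e3
    exact_mod_cast e4
  · have hq0 : (0 : ℝ) < q j := by linarith [hq1 j]
    show |x j - ((p j : ℝ) + y j) / (q j : ℝ)| ≤ |A| * (max 1 (q j : ℝ)) ^ (-(1 + θ))
    rw [max_eq_right (hq1 j)]
    have e1 : x j - ((p j : ℝ) + y j) / (q j : ℝ) = ((q j : ℝ) * x j - p j - y j) / (q j : ℝ) := by
      field_simp
      ring
    rw [e1, abs_div, abs_of_pos hq0, div_le_iff₀ hq0]
    have e2 : |A| * (q j : ℝ) ^ (-(1 + θ)) * (q j : ℝ) = |A| * (q j : ℝ) ^ (-θ) := by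
      rw [mul_assoc]
      congr 1
      have e3 : -(1 + θ) = -θ - 1 := by ring
      rw [e3, Real.rpow_sub_one hq0.ne', div_mul_cancel₀ _ hq0.ne']
    rw [e2]
    exact (hp j).trans (mul_le_mul_of_nonneg_right (le_abs_self A) (by positivity))

/-- **Theorem.** -/
theorem tuples_null {m : ℕ} {Bad : (Fin m → ℕ) → Prop} {s θ : ℝ} (hs : 0 ≤ s) (hF : Few Bad s) (hθ : s < θ)
    (y : Fin m → ℝ) : ∀ᵐ x : Fin m → ℝ, ∀ A : ℝ, (Tup Bad θ A y x).Finite := by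
  have key : ∀ᵐ x : Fin m → ℝ, ∀ R : ℕ, ∀ A : ℝ, {i | i ∈ TExc Bad (R + 1) ∧
      ∀ j, |x j - ((i.2 j : ℝ) + y j) / (i.1 j : ℝ)| ≤ A * (TH i j) ^ (-(1 + θ))}.Finite := by
    rw [ae_all_iff]
    intro R
    exact rect_null (n := m) (E := TExc Bad (R + 1)) (H := fun i j => TH i j)
      (e := fun i j => ((i.2 j : ℝ) + y j) / (i.1 j : ℝ)) (fun i j => le_max_left _ _) (κ := s + 1)
      (v := 1 + θ) (sparse_tuples hF (R + 1) (by omega)) (by linarith) (by linarith)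
  filter_upwards [key] with x hx A
  obtain ⟨R, hR⟩ := exists_nat_ge (‖x‖ + ‖y‖ + |A|)
  exact ((hx R |A|).image Prod.fst).subset (cover (by linarith) y x hR)

/-- **Theorem.** -/
theorem tuples_dim {m : ℕ} (hm : 1 ≤ m) {Bad : (Fin m → ℕ) → Prop} {s θ : ℝ} (hs : 0 ≤ s) (hF : Few Bad s)
    (hθ : 0 ≤ θ) (A : ℝ) (y : Fin m → ℝ) :
    dimH {x : Fin m → ℝ | (Tup Bad θ A y x).Infinite} ≤ ENNReal.ofReal (m - 1 + (s + 1) / (1 + θ)) := by
  have h1 : {x : Fin m → ℝ | (Tup Bad θ A y x).Infinite} ⊆ ⋃ R : ℕ, {x : Fin m → ℝ | {i | i ∈ TExc Bad (R + 1) ∧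
      ∀ j, |x j - ((i.2 j : ℝ) + y j) / (i.1 j : ℝ)| ≤ |A| * (TH i j) ^ (-(1 + θ))}.Infinite} := by
    intro x hx
    obtain ⟨R, hR⟩ := exists_nat_ge (‖x‖ + ‖y‖ + |A|)
    rw [Set.mem_iUnion]
    exact ⟨R, fun h => hx ((h.image Prod.fst).subset (cover hθ y x hR))⟩
  refine (dimH_mono h1).trans ?_
  rw [dimH_iUnion]
  exact iSup_le fun R => rect_dim hm (E := TExc Bad (R + 1)) (H := fun i j => TH i j)
    (e := fun i j => ((i.2 j : ℝ) + y j) / (i.1 j : ℝ)) (fun i j => le_max_left _ _) (κ := s + 1)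
    (v := 1 + θ) (sparse_tuples hF (R + 1) (by omega)) (by linarith) (by linarith) |A|

end Pool.Agent.X218.RC
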